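import Pool.Agent.Helper96.GPL.St

set_option autoImplicit false

namespace Pool.Agent.Helper36.GPL

open Pool.Agent.Helper96.GPL Pool.Agent.Helper18.GP Relation

private theorem sum_sym {k : ℕ} (T : Finset (Fin k)) (w : Fin k → Fin k → ℝ)
    (hs : ∀ u v, w u v = w v u) (h0 : ∀ u, w u u = 0) :
    ∑ p ∈ T ×ˢ T, w p.1 p.2 = 2 * ∑ p ∈ (T ×ˢ T).filter (fun p => p.1 < p.2), w p.1 p.2 := by
  have h1 : ∀ p ∈ T ×ˢ T, w p.1 p.2 =
      (if p.1 < p.2 then w p.1 p.2 else 0) + (if p.2 < p.1 then w p.1 p.2 else 0) := by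
    intro p _
    rcases lt_trichotomy p.1 p.2 with h | h | h
    · rw [if_pos h, if_neg (lt_asymm h)]; simp
    · rw [if_neg (by rw [h]; exact lt_irrefl _), if_neg (by rw [h]; exact lt_irrefl _), h, h0]; simp
    · rw [if_neg (lt_asymm h), if_pos h]; simp
  rw [Finset.sum_congr rfl h1, Finset.sum_add_distrib, Finset.sum_filter]
  have h2 : ∑ p ∈ T ×ˢ T, (if p.2 < p.1 then w p.1 p.2 else 0) =
      ∑ p ∈ T ×ˢ T, (if p.1 < p.2 then w p.1 p.2 else 0) := by
    rw [Finset.sum_product, Finset.sum_product, Finset.sum_comm]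
    refine Finset.sum_congr rfl fun u _ => Finset.sum_congr rfl fun v _ => ?_
    simp only
    rw [hs v u]
  rw [h2]; ring

private theorem sum_split {k : ℕ} (i : Fin k) (w : Fin k → Fin k → ℝ)
    (hs : ∀ u v, w u v = w v u) (h0 : ∀ u, w u u = 0) :
    ∑ p ∈ (Finset.univ ×ˢ Finset.univ : Finset (Fin k × Fin k)), w p.1 p.2 =
      ∑ p ∈ (Finset.univ.erase i) ×ˢ (Finset.univ.erase i), w p.1 p.2 + 2 * ∑ v, w i v := by
  rw [Finset.sum_product, Finset.sum_product]
  have h1 : ∀ g : Fin k → ℝ, ∑ v, g v = g i + ∑ v ∈ Finset.univ.erase i, g v := fun g =>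
    (Finset.add_sum_erase Finset.univ g (Finset.mem_univ i)).symm
  rw [h1 (fun u => ∑ v, w u v)]
  have h2 : ∑ u ∈ Finset.univ.erase i, ∑ v, w u v =
      ∑ u ∈ Finset.univ.erase i, (w i u + ∑ v ∈ Finset.univ.erase i, w u v) := by
    refine Finset.sum_congr rfl fun u _ => ?_
    rw [h1 (fun v => w u v), hs u i]
  rw [h2, Finset.sum_add_distrib]
  have h3 : ∑ u ∈ Finset.univ.erase i, w i u = ∑ v, w i v := by
    rw [h1 (fun v => w i v), h0]; ring
  rw [h3]
  simp only
  ring

theorem pRed : lRed := by
  classical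
  intro X S d A k H x hd hA hT i hi hdeg
  -- a neighbour of `i`
  obtain ⟨a, ha⟩ := hA
  obtain ⟨j, hj⟩ := hT.cov a (by exact_mod_cast ha)
  have hji : j ≠ i := by
    rintro rfl
    exact hi (by rw [hj]; exact ha)
  have hcon : H.Connected := hT.tree.isConnected
  obtain ⟨p, hp⟩ : ∃ p, H.Adj i p := by
    obtain ⟨w⟩ := hcon.preconnected i j
    cases w with
    | nil => exact absurd rfl hji
    | cons h _ => exact ⟨_, h⟩
  have hpi : p ≠ i := hp.ne'
  -- the network
  set T1 : Finset (Fin k × Fin k) :=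
    ((Finset.univ.erase i) ×ˢ (Finset.univ.erase i)).filter (fun q => q.1 < q.2 ∧ H.Adj q.1 q.2)
    with hT1
  set T2 : Finset (Fin k) := Finset.univ.filter (fun q => H.Adj i q ∧ q ≠ p) with hT2
  refine ⟨T1.toList.map (fun q => (x q.1, x q.2)) ++ T2.toList.map (fun q => (x p, x q)), ?_, ?_, ?_⟩
  · -- connected
    set E := T1.toList.map (fun q => (x q.1, x q.2)) ++ T2.toList.map (fun q => (x p, x q)) with hE
    set f : Fin k → Fin k := fun u => if u = i then p else u with hf
    have step : ∀ u v, H.Adj u v → EqvGen (fun a b => (a, b) ∈ E) (x (f u)) (x (f v)) := by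
      have half : ∀ u v, u ≠ i → v ≠ i → u < v → H.Adj u v →
          EqvGen (fun a b => (a, b) ∈ E) (x (f u)) (x (f v)) := by
        intro u v hu hv huv h
        refine EqvGen.rel _ _ ?_
        simp only [hf, if_neg hu, if_neg hv, hE, List.mem_append, List.mem_map, Finset.mem_toList]
        left
        exact ⟨(u, v), by simp [hT1, hu, hv, huv, h], rfl⟩
      have one : ∀ v, H.Adj i v → EqvGen (fun a b => (a, b) ∈ E) (x (f i)) (x (f v)) := by
        intro v h
        have hv : v ≠ i := h.ne'
        simp only [hf, if_neg hv, if_true]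
        by_cases hvp : v = p
        · rw [hvp]; exact EqvGen.refl _
        · refine EqvGen.rel _ _ ?_
          simp only [hE, List.mem_append, List.mem_map, Finset.mem_toList]
          right
          exact ⟨v, by simp [hT2, h, hvp], rfl⟩
      intro u v h
      by_cases hu : u = i
      · subst hu; exact one v h
      by_cases hv : v = i
      · subst hv; exact EqvGen.symm _ _ (one u h.symm)
      rcases lt_trichotomy u v with h1 | h1 | h1
      · exact half u v hu hv h1 h
      · exact absurd h1 h.ne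
      · exact EqvGen.symm _ _ (half v u hv hu h1 h.symm)
    have walk : ∀ u v, H.Walk u v → EqvGen (fun a b => (a, b) ∈ E) (x (f u)) (x (f v)) := by
      intro u v w
      induction w with
      | nil => exact EqvGen.refl _
      | cons h _ ih => exact EqvGen.trans _ _ _ (step _ _ h) ih
    intro b hb c hc
    obtain ⟨u, hu⟩ := hT.cov b hb
    obtain ⟨v, hv⟩ := hT.cov c hc
    have hui : u ≠ i := by
      rintro rfl; exact hi (by rw [hu]; exact_mod_cast hb)
    have hvi : v ≠ i := by
      rintro rfl; exact hi (by rw [hv]; exact_mod_cast hc)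
    obtain ⟨w⟩ := hcon.preconnected u v
    have := walk u v w
    simpa only [hf, if_neg hui, if_neg hvi, hu, hv] using this
  · -- length
    set w : Fin k → Fin k → ℝ := fun u v => if H.Adj u v then d (x u) (x v) else 0 with hw
    have hws : ∀ u v, w u v = w v u := by
      intro u v
      simp only [hw, H.adj_comm u v]
      rw [hd.symm (x u) (hT.mem u) (x v) (hT.mem v)]
    have hw0 : ∀ u, w u u = 0 := by
      intro u; simp only [hw]; rw [if_neg (H.loopless.irrefl u)]
    have hlen : tlen d H x = ∑ q ∈ T1, d (x q.1) (x q.2) + ∑ v, w i v := by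
      have e1 : ∑ q ∈ (Finset.univ ×ˢ Finset.univ : Finset (Fin k × Fin k)).filter
          (fun q => H.Adj q.1 q.2), d (x q.1) (x q.2) =
          ∑ q ∈ (Finset.univ ×ˢ Finset.univ : Finset (Fin k × Fin k)), w q.1 q.2 := by
        rw [Finset.sum_filter]
      have e2 : ∑ q ∈ ((Finset.univ.erase i) ×ˢ (Finset.univ.erase i)).filter
          (fun q : Fin k × Fin k => q.1 < q.2), w q.1 q.2 = ∑ q ∈ T1, d (x q.1) (x q.2) := by
        rw [hT1, ← Finset.filter_filter, Finset.sum_filter (p := fun q : Fin k × Fin k => H.Adj q.1 q.2)]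
      unfold tlen
      have e3 := sum_split i w hws hw0
      have e4 := sum_sym (Finset.univ.erase i) w hws hw0
      have e5 : ∑ q ∈ (Finset.univ ×ˢ Finset.univ : Finset (Fin k × Fin k)).filter
          (fun q => H.Adj q.1 q.2), d (x q.1) (x q.2) =
          2 * ∑ q ∈ T1, d (x q.1) (x q.2) + 2 * ∑ v, w i v := by
        rw [e1, e3, e4, e2]
      have e6 : (∑ q ∈ (Finset.univ ×ˢ Finset.univ : Finset (Fin k × Fin k)).filter
          (fun q => H.Adj q.1 q.2), d (x q.1) (x q.2)) / 2 =
          ∑ q ∈ T1, d (x q.1) (x q.2) + ∑ v, w i v := by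
        rw [e5]; ring
      convert e6 using 3
    have hnl : nlen d (T1.toList.map (fun q => (x q.1, x q.2)) ++ T2.toList.map (fun q => (x p, x q))) =
        ∑ q ∈ T1, d (x q.1) (x q.2) + ∑ q ∈ T2, d (x p) (x q) := by
      unfold nlen
      rw [List.map_append, List.sum_append, List.map_map, List.map_map]
      congr 1
      · exact Finset.sum_map_toList T1 _
      · exact Finset.sum_map_toList T2 _
    rw [hlen, hnl]
    have hsum : ∑ v, w i v = d (x i) (x p) + ∑ q ∈ T2, d (x i) (x q) := by
      have : ∑ v, w i v = ∑ v ∈ Finset.univ.filter (fun v => H.Adj i v), d (x i) (x v) := by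
        rw [Finset.sum_filter]
      rw [this]
      have hins : Finset.univ.filter (fun v => H.Adj i v) = insert p T2 := by
        ext v
        simp only [Finset.mem_filter, Finset.mem_univ, true_and, Finset.mem_insert, hT2]
        constructor
        · intro h; by_cases hv : v = p
          · exact Or.inl hv
          · exact Or.inr ⟨h, hv⟩
        · rintro (h | h)
          · rw [h]; exact hp
          · exact h.1
      rw [hins, Finset.sum_insert (by simp [hT2])]
    have hcard : T2.card ≤ 1 := by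
      have hins : insert p T2 ⊆ Finset.univ.filter (fun v => H.Adj i v) := by
        intro v
        simp only [Finset.mem_filter, Finset.mem_univ, true_and, Finset.mem_insert, hT2]
        rintro (h | h)
        · rw [h]; exact hp
        · exact h.1
      have h1 := Finset.card_le_card hins
      rw [Finset.card_insert_of_notMem (by simp [hT2])] at h1
      have h2 : (Finset.univ.filter fun j => H.Adj i j).card ≤ 2 := by convert hdeg
      omega
    rw [hsum]
    have hnn : 0 ≤ d (x i) (x p) := hd.nonneg _ (hT.mem i) _ (hT.mem p)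
    have hle : ∑ q ∈ T2, d (x p) (x q) ≤ ∑ q ∈ T2, (d (x i) (x p) + d (x i) (x q)) := by
      refine Finset.sum_le_sum fun q _ => ?_
      have := hd.tri (x p) (hT.mem p) (x i) (hT.mem i) (x q) (hT.mem q)
      rwa [hd.symm (x p) (hT.mem p) (x i) (hT.mem i)] at this
    rw [Finset.sum_add_distrib, Finset.sum_const, nsmul_eq_mul] at hle
    have hc : (T2.card : ℝ) ≤ 1 := by exact_mod_cast hcard
    have : (T2.card : ℝ) * d (x i) (x p) ≤ 1 * d (x i) (x p) := mul_le_mul_of_nonneg_right hc hnn
    linarith
  · -- nodes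
    intro e he
    rw [List.mem_append, List.mem_map, List.mem_map] at he
    rcases he with ⟨q, hq, rfl⟩ | ⟨q, hq, rfl⟩
    · rw [Finset.mem_toList] at hq
      simp only [hT1, Finset.mem_filter, Finset.mem_product, Finset.mem_erase] at hq
      exact ⟨⟨q.1, hq.1.1.1, rfl⟩, ⟨q.2, hq.1.2.1, rfl⟩⟩
    · rw [Finset.mem_toList] at hq
      simp only [hT2, Finset.mem_filter] at hq
      exact ⟨⟨p, hpi, rfl⟩, ⟨q, hq.2.1.ne', rfl⟩⟩

end Pool.Agent.Helper36.GPL
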