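import Pool.Agent.Helper96.GPL.St

set_option autoImplicit false

namespace Pool.Agent.Helper36.GPL

open Pool.Agent.Helper96.GPL Pool.Agent.Helper18.GP Relation

theorem pLow : lLow := by
  classical
  intro X S d E a b hd ha hb hE hab
  set Γ : SimpleGraph X := SimpleGraph.fromRel (fun x y => (x, y) ∈ E) with hΓ
  have hreach : ∀ x y, EqvGen (fun x y => (x, y) ∈ E) x y → Γ.Reachable x y := by
    intro x y h
    induction h with
    | rel x y h =>
      by_cases hxy : x = y
      · rw [hxy]
      · exact SimpleGraph.Adj.reachable (by rw [hΓ, SimpleGraph.fromRel_adj]; exact ⟨hxy, Or.inl h⟩)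
    | refl x => exact SimpleGraph.Reachable.refl x
    | symm x y _ ih => exact ih.symm
    | trans x y z _ _ ih1 ih2 => exact ih1.trans ih2
  have hadj : ∀ u v, Γ.Adj u v → (u ∈ S ∧ v ∈ S) ∧ ((u, v) ∈ E ∨ (v, u) ∈ E) := by
    intro u v h
    rw [hΓ, SimpleGraph.fromRel_adj] at h
    rcases h.2 with h | h
    · exact ⟨hE _ h, Or.inl h⟩
    · exact ⟨⟨(hE _ h).2, (hE _ h).1⟩, Or.inr h⟩
  set D : Sym2 X → ℝ := Sym2.lift ⟨fun x y => if x ∈ S ∧ y ∈ S then d x y else 0, by
    intro x y
    beta_reduce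
    by_cases h : x ∈ S ∧ y ∈ S
    · rw [if_pos h, if_pos ⟨h.2, h.1⟩, hd.symm x h.1 y h.2]
    · rw [if_neg h, if_neg (fun h' => h ⟨h'.2, h'.1⟩)]⟩ with hD
  have hDs : ∀ x ∈ S, ∀ y ∈ S, D s(x, y) = d x y := by
    intro x hx y hy
    rw [hD, Sym2.lift_mk]
    exact if_pos ⟨hx, hy⟩
  have hDnn : ∀ z, 0 ≤ D z := by
    intro z
    induction z using Sym2.ind with
    | _ x y =>
      rw [hD, Sym2.lift_mk]
      simp only
      split_ifs with h
      · exact hd.nonneg x h.1 y h.2
      · exact le_refl _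
  have hw : ∀ u v (p : Γ.Walk u v), u ∈ S → v ∈ S → d u v ≤ (p.edges.map D).sum := by
    intro u v p
    induction p with
    | nil => intro hu _; simp [hd.self _ hu]
    | cons h p ih =>
      intro hu hw
      have h' := (hadj _ _ h).1
      rw [SimpleGraph.Walk.edges_cons, List.map_cons, List.sum_cons, hDs _ h'.1 _ h'.2]
      exact le_trans (hd.tri _ hu _ h'.2 _ hw) (by linarith [ih h'.2 hw])
  obtain ⟨p, hp⟩ := (hreach a b hab).exists_isPath
  have h1 := hw a b p ha hb
  have hsub : p.edges ⊆ E.map (fun e => s(e.1, e.2)) := by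
    intro z hz
    induction z using Sym2.ind with
    | _ x y =>
      have := hadj x y (SimpleGraph.Walk.adj_of_mem_edges p hz)
      rw [List.mem_map]
      rcases this.2 with h | h
      · exact ⟨_, h, rfl⟩
      · exact ⟨_, h, Sym2.eq_swap⟩
  have hsp : (p.edges : Multiset (Sym2 X)) ≤ ((E.map (fun e => s(e.1, e.2)) : List (Sym2 X)) : Multiset _) :=
    Multiset.coe_le.2 (List.Nodup.subperm hp.isTrail.edges_nodup hsub)
  obtain ⟨u, hu⟩ := Multiset.le_iff_exists_add.1 hsp
  have h2 : ((E.map (fun e => s(e.1, e.2))).map D).sum = nlen d E := by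
    unfold nlen
    rw [List.map_map]
    congr 1
    refine List.map_congr_left fun e he => ?_
    exact hDs _ (hE e he).1 _ (hE e he).2
  have h3 : ((E.map (fun e => s(e.1, e.2))).map D).sum = (p.edges.map D).sum + (u.map D).sum := by
    have := congrArg (fun m => (Multiset.map D m).sum) hu
    simp only [Multiset.map_add, Multiset.sum_add, Multiset.map_coe, Multiset.sum_coe] at this
    exact this
  have h4 : 0 ≤ (u.map D).sum := Multiset.sum_nonneg (by
    intro z hz
    obtain ⟨t, _, rfl⟩ := Multiset.mem_map.1 hz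
    exact hDnn t)
  linarith

end Pool.Agent.Helper36.GPL
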